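import Pool.Agent.Helper98.MM.Tail

/-!
# One-dimensional stable multi-matching: heavy tailed degrees percolate whatever their parity

The conjectured criterion `there is an infinite component if and only if the degree law is
supported on the even integers` is false. If the tail of the degree law `μ` lies between two power
laws `c t ^ (-a)` and `C t ^ (-b)` with `0 ≤ b`, `0 < a < b + 1`, then almost surely the stable
multi-matching has an infinite component. In particular, for every `M` there is such a law which is
supported on the odd integers and has a finite `M`-th moment.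

Idea of the proof. Two points which both have an edge longer than their distance must be joined.
So the neighbours of a point `v` on one side of `v` at distances in `(r, 2r]` form a clique; if
there are `n` of them, then `n` points of this window have at least `n` stubs. For a power law of
exponent `a` this forces `n ≤ R ^ (1/(1+a) + o(1))` in a window of size `R`. On the other hand the
window contains points with `R ^ (1/a - o(1))` stubs, and such a point has an edge longer than `4 R`.
Points of this kind at consecutive scales `R = 2 ^ J`, `2 ^ (J+1)` are joined by the same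
principle, and form an infinite component.

The definitions are in `Pool/Agent/Helper98/MM/Det.lean` (`IsStableMultiMatching`) and
`Pool/Agent/Helper98/MM/Model.lean` (`count`, `IsPoisson`, `IsMarkedPoisson`).
-/

set_option autoImplicit false

open MeasureTheory ProbabilityTheory Set
open scoped ENNReal

namespace Pool.Agent.Results.MP_32afb7_pr.HeavyTailsPercolate

open Pool.Agent.Helper98.MM

/-- For the Poisson process of intensity `1` on the line with i.i.d. numbers of stubs of law `μ`
(the points are `x 0 ω, x 1 ω, …`, the point `x i ω` has `D i ω` stubs, and graphs on the points are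
given as graphs on the set `ℕ` of the indices), almost surely a stable multi-matching exists and
every stable multi-matching has an infinite connected component. -/
def Percolates (μ : Measure ℕ) : Prop :=
  ∀ (Ω : Type) [MeasurableSpace Ω] (P : Measure Ω) [IsProbabilityMeasure P] (x : ℕ → Ω → ℝ)
    (D : ℕ → Ω → ℕ), IsMarkedPoisson P μ x D → ∀ᵐ ω ∂P,
      (∃ G : SimpleGraph ℕ, IsStableMultiMatching (fun i => x i ω) (fun i => D i ω) G) ∧
      ∀ G : SimpleGraph ℕ, IsStableMultiMatching (fun i => x i ω) (fun i => D i ω) G →
        ∃ K : G.ConnectedComponent, K.supp.Infinite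

/-- (1) Every degree law whose tail lies between `c t ^ (-a)` and `C t ^ (-b)`, where `0 < a`,
`0 ≤ b` and `a < b + 1`, percolates. (2) For every `M` there is a law `μ` on the odd positive
integers with finite `M`-th moment which percolates. (3) For every `μ` the marked Poisson process
exists. -/
theorem result :
    (∀ (μ : Measure ℕ) [IsProbabilityMeasure μ] (a b c C : ℝ), 0 < a → 0 ≤ b → a < b + 1 →
      0 < c → (∀ t : ℕ, 1 ≤ t → c * (t : ℝ) ^ (-a) ≤ μ.real {k | t < k} ∧
        μ.real {k | t < k} ≤ C * (t : ℝ) ^ (-b)) → Percolates μ) ∧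
    (∀ M : ℕ, ∃ μ : Measure ℕ, IsProbabilityMeasure μ ∧ (∀ᵐ k ∂μ, Odd k) ∧
      ∫⁻ k, (k : ℝ≥0∞) ^ M ∂μ < ∞ ∧ Percolates μ) ∧
    (∀ (μ : Measure ℕ) [IsProbabilityMeasure μ],
      ∃ (Ω : Type) (_ : MeasurableSpace Ω) (P : Measure Ω) (_ : IsProbabilityMeasure P)
        (x : ℕ → Ω → ℝ) (D : ℕ → Ω → ℕ), IsMarkedPoisson P μ x D) := by
  have main : ∀ (μ : Measure ℕ) [IsProbabilityMeasure μ] (a b c C : ℝ), 0 < a → 0 ≤ b →
      a < b + 1 → 0 < c → (∀ t : ℕ, 1 ≤ t → c * (t : ℝ) ^ (-a) ≤ μ.real {k | t < k} ∧
        μ.real {k | t < k} ≤ C * (t : ℝ) ^ (-b)) → Percolates μ := by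
    intro μ _ a b c C ha hb hab hc htail Ω _ P _ x D h
    filter_upwards [ae_finite h.points, ae_nice h ha hb hab hc (fun t ht => (htail t ht).1)
      (fun t ht => (htail t ht).2)] with ω h1 h2
    exact det_main h1 h2
  refine ⟨main, fun M => ?_, fun μ _ => exists_marked μ⟩
  have ha : (0 : ℝ) < (M : ℝ) + 1 := by positivity
  refine ⟨oddLaw (M + 1), inferInstance, oddLaw_odd ha, oddLaw_moment M, ?_⟩
  refine main _ ((M : ℝ) + 1) ((M : ℝ) + 1) ((2 : ℝ) ^ (-((M : ℝ) + 1)))
    ((2 : ℝ) ^ ((M : ℝ) + 1)) ha ha.le (by linarith) (by positivity) fun t ht => ?_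
  have h1 : (oddLaw ((M : ℝ) + 1)).real {k | t < k} =
      (((t + 1) / 2 + 1 : ℕ) : ℝ) ^ (-((M : ℝ) + 1)) := oddLaw_tail ha t
  have ht0 : (0 : ℝ) < t := by
    have : 0 < t := by omega
    exact_mod_cast this
  rw [h1]
  constructor
  · rw [← Real.mul_rpow (by norm_num) ht0.le]
    refine Real.rpow_le_rpow_of_nonpos (by positivity) ?_ (by linarith)
    have : (t + 1) / 2 + 1 ≤ 2 * t := by omega
    exact_mod_cast this
  · have h2 : (2 : ℝ) ^ ((M : ℝ) + 1) * (t : ℝ) ^ (-((M : ℝ) + 1)) =
        ((t : ℝ) / 2) ^ (-((M : ℝ) + 1)) := by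
      rw [Real.div_rpow ht0.le (by norm_num), Real.rpow_neg (by norm_num : (0 : ℝ) ≤ 2)]
      field_simp
    rw [h2]
    refine Real.rpow_le_rpow_of_nonpos (by positivity) ?_ (by linarith)
    have h3 : t ≤ 2 * ((t + 1) / 2 + 1) := by omega
    have h4 : (t : ℝ) ≤ 2 * (((t + 1) / 2 + 1 : ℕ) : ℝ) := by exact_mod_cast h3
    linarith

end Pool.Agent.Results.MP_32afb7_pr.HeavyTailsPercolate
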